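import Mathlib
import Pool.Graph.R_pool_sql_team_seeded_3997aac3.Q51.SZ.All
import Pool.Graph.R_pool_sql_team_seeded_3997aac3.Q68.EB.Solvm
import Pool.Graph.R_pool_sql_team_seeded_3997aac3.Q68.EB.Cntlm

/-!
# Superelliptic twists `≡ 1` modulo `N` times a given one outside of a sparse set: existence
-/

set_option autoImplicit false

namespace Pool.Agent.Helper47.DG

open Polynomial Finset
open Pool.Agent.Q51.EL (pr Gf)
open Pool.Agent.Q51.EB (ELSM)
open Pool.Agent.Q51.SE (count)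
open Pool.Agent.Q51.ZC (fin_set count_mono)

theorem exists_twist (f : ℤ[X]) (hf : Irreducible (f.map (Int.castRingHom ℚ))) (m : ℕ) (hm : 0 < m)
    (D0 : ℤ) (hD0s : Squarefree D0) (hels : ELSM f m D0) (N : ℕ) (hN : N ≠ 0) (Q : ℤ → Prop)
    (hQ : ∃ c C : ℝ, 0 < c ∧ 0 ≤ C ∧ ∀ X : ℝ, 3 ≤ X → (count Q X : ℝ) ≤
      C * X / Real.log X * Real.exp (Gf f X) * Real.log X ^ (-c)) :
    ∃ k : ℕ, 0 < k ∧ k.Coprime N ∧ k % N = 1 % N ∧ Squarefree (D0 * (k : ℤ)) ∧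
      ELSM f m (D0 * k) ∧ ¬ Q (D0 * k) := by
  classical
  have hD0 : D0 ≠ 0 := hD0s.ne_zero
  obtain ⟨W0, hW0, hDW0, hsol0⟩ := Pool.Agent.Q51.EB.t_solvm f hf m hm D0 hD0 hels
  obtain ⟨W, hWdef⟩ : ∃ W : ℕ, W = W0 * N := ⟨_, rfl⟩
  have hW : W ≠ 0 := by rw [hWdef]; exact mul_ne_zero hW0 hN
  have hW0W : W0 ∣ W := by rw [hWdef]; exact dvd_mul_right W0 N
  have hNW : N ∣ W := by rw [hWdef]; exact dvd_mul_left N W0
  have hDW : D0 ∣ (W : ℤ) := hDW0.trans (by exact_mod_cast hW0W)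
  have hmodd : ∀ (a M M' : ℕ), M' ∣ M → a % M = 1 % M → a % M' = 1 % M' := by
    intro a M M' h1 h2
    exact (Nat.ModEq.of_dvd h1 h2)
  have hsol : ∀ k : ℕ, 0 < k → k.Coprime W → k % W = 1 % W →
    (∀ q : ℕ, q.Prime → q ∣ k → ∃ r : ℤ, (q : ℤ) ∣ f.eval r) → ELSM f m (D0 * k) := by
    intro k h1 h2 h3 h4
    exact hsol0 k h1 (h2.coprime_dvd_right hW0W) (hmodd k W W0 hW0W h3) h4
  obtain ⟨c0, Y0, hc0, hch⟩ := Pool.Agent.Q154.EL.ch1 f hf W hW
  obtain ⟨P, hP⟩ : ∃ P : Set ℕ, P = {q : ℕ | q.Prime ∧ ∃ r : ℤ, (q : ℤ) ∣ f.eval r} := ⟨_, rfl⟩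
  have hPm : ∀ q : ℕ, q ∈ P ↔ q.Prime ∧ ∃ r : ℤ, (q : ℤ) ∣ f.eval r := by intro q; rw [hP]; rfl
  obtain ⟨S, hS⟩ : ∃ S : Set ℕ, S = {p : ℕ | p ∈ P ∧ p % W = 1 % W} := ⟨_, rfl⟩
  have hSm : ∀ q : ℕ, q ∈ S ↔ q ∈ P ∧ q % W = 1 % W := by intro q; rw [hS]; rfl
  obtain ⟨c, X0, hc, hcn⟩ := Pool.Agent.Q68.EB.cntlm W P S hW
    (fun p hp => ((hSm p).mp hp).1)
    (fun p hp => ((hPm p).mp hp).1) (fun p hp => ((hSm p).mp hp).2) ⟨c0, Y0, hc0, fun Y hY => by
      refine (hch Y hY).trans (le_of_eq ?_)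
      congr 2
      refine filter_congr fun p hp => ?_
      unfold pr at hp
      rw [mem_filter] at hp
      rw [hSm, hPm]
      tauto⟩
  obtain ⟨M, hM⟩ : ∃ M : ℝ, M = (D0.natAbs : ℝ) := ⟨_, rfl⟩
  have hM1 : 1 ≤ M := by
    rw [hM]; exact_mod_cast Nat.one_le_iff_ne_zero.mpr (Int.natAbs_ne_zero.mpr hD0)
  have hM0 : 0 < M := by linarith
  obtain ⟨δ, C, hδ, hC, hbad⟩ := hQ
  -- a large X
  obtain ⟨X, hX1, hX2, hX6, hXl⟩ : ∃ X : ℝ, M * X0 ≤ X ∧ M * 3 ≤ X ∧ 3 ≤ X ∧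
      C * Real.log X ^ (-δ) < c / M * Real.exp (-M) := by
    have h1 : Filter.Tendsto (fun X : ℝ => C * Real.log X ^ (-δ)) Filter.atTop (nhds (C * 0)) :=
      ((tendsto_rpow_neg_atTop hδ).comp Real.tendsto_log_atTop).const_mul C
    rw [mul_zero] at h1
    have h2 : 0 < c / M * Real.exp (-M) := by positivity
    have h3 := (h1.eventually (gt_mem_nhds h2)).and
      ((Filter.eventually_ge_atTop (M * X0)).and ((Filter.eventually_ge_atTop (M * 3)).and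
        (Filter.eventually_ge_atTop 3)))
    obtain ⟨X, hX⟩ := h3.exists
    exact ⟨X, hX.2.1, hX.2.2.1, hX.2.2.2, hX.1⟩
  have hX3 : 3 ≤ X / M := by rw [le_div_iff₀ hM0]; linarith
  have hX0 : 0 < X := by linarith
  have hXM : X / M ≤ X := div_le_self hX0.le hM1
  have h4 := hcn (X / M) (by rw [le_div_iff₀ hM0]; linarith)
  have hlog : 0 < Real.log (X / M) := Real.log_pos (by linarith)
  have hlog1 : 0 < Real.log X := Real.log_pos (by linarith)
  have hlog2 : Real.log (X / M) ≤ Real.log X := Real.log_le_log (by linarith) hXM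
  have h5 : ∑ q ∈ (pr (X / M)).filter (fun q : ℕ => q ∈ P), (1 : ℝ) / (q : ℝ) = Gf f (X / M) := by
    rw [Pool.Agent.Q198.EL.Gf_eq]
    refine sum_congr (filter_congr fun p hp => ?_) fun _ _ => rfl
    unfold pr at hp
    rw [mem_filter] at hp
    rw [hPm]
    tauto
  rw [h5] at h4
  have h6' := Pool.Agent.Q198.EL.Gf_le f hM1 (by linarith : M ≤ X)
  have h7 : c / M * Real.exp (-M) * (X / Real.log X * Real.exp (Gf f X)) ≤
      c * (X / M) / Real.log (X / M) * Real.exp (Gf f (X / M)) := by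
    have h8 : Real.exp (Gf f X) ≤ Real.exp (Gf f (X / M)) * Real.exp M := by
      rw [← Real.exp_add]; exact Real.exp_le_exp.mpr h6'
    have h9 : Real.exp (-M) * Real.exp M = 1 := by rw [← Real.exp_add]; simp
    calc c / M * Real.exp (-M) * (X / Real.log X * Real.exp (Gf f X))
        = (c * (X / M)) / Real.log X * (Real.exp (-M) * Real.exp (Gf f X)) := by ring
      _ ≤ (c * (X / M)) / Real.log (X / M) *
          (Real.exp (-M) * (Real.exp (Gf f (X / M)) * Real.exp M)) := by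
          gcongr
      _ = (c * (X / M)) / Real.log (X / M) *
          (Real.exp (Gf f (X / M)) * (Real.exp (-M) * Real.exp M)) := by ring
      _ = _ := by rw [h9, mul_one]
  have h10 := h7.trans h4
  have hMain : 0 < X / Real.log X * Real.exp (Gf f X) := by
    have := Real.exp_pos (Gf f X)
    positivity
  have h11 : (count Q X : ℝ) <
      (((Icc 1 ⌊X / M⌋₊).filter (fun k : ℕ => Squarefree k ∧ k.Coprime W ∧
      (∀ q : ℕ, q.Prime → q ∣ k → q ∈ P) ∧ k % W = 1 % W)).card : ℝ) := by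
    refine lt_of_le_of_lt (hbad X hX6) (lt_of_lt_of_le ?_ h10)
    have e1 : C * X / Real.log X * Real.exp (Gf f X) * Real.log X ^ (-δ) =
      C * Real.log X ^ (-δ) * (X / Real.log X * Real.exp (Gf f X)) := by ring
    rw [e1]
    exact mul_lt_mul_of_pos_right hXl hMain
  by_contra hno
  push Not at hno
  refine absurd h11 (not_lt.2 ?_)
  unfold count
  refine Nat.cast_le.mpr ?_
  rw [← Set.ncard_coe_finset]
  have hdat : ∀ k ∈ (Icc 1 ⌊X / M⌋₊).filter (fun k : ℕ => Squarefree k ∧ k.Coprime W ∧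
      (∀ q : ℕ, q.Prime → q ∣ k → q ∈ P) ∧ k % W = 1 % W),
      Squarefree (D0 * (k : ℤ)) := by
    intro k hk
    rw [mem_filter, mem_Icc] at hk
    obtain ⟨⟨m1, m2⟩, m3, m4, m5, m6⟩ := hk
    have hcop : IsCoprime D0 (k : ℤ) := by
      have h8 : IsCoprime (W : ℤ) (k : ℤ) := by
        rw [Nat.isCoprime_iff_coprime]; exact m4.symm
      exact h8.of_isCoprime_of_dvd_left hDW
    rw [squarefree_mul_iff]
    refine ⟨hcop.isRelPrime, hD0s, ?_⟩
    exact_mod_cast (Int.squarefree_natCast.mpr m3)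
  refine Set.ncard_le_ncard_of_injOn (fun k : ℕ => D0 * (k : ℤ)) (fun k hk => ?_) ?_
    (fin_set X _)
  · have hk' := hdat k (Finset.mem_coe.1 hk)
    rw [Finset.mem_coe, mem_filter, mem_Icc] at hk
    obtain ⟨⟨m1, m2⟩, m3, m4, m5, m6⟩ := hk
    refine ⟨hk', ?_, ?_⟩
    · have e1 : |((D0 * (k : ℤ) : ℤ) : ℝ)| = M * (k : ℝ) := by
        rw [hM]
        push_cast
        rw [abs_mul, Nat.cast_natAbs, Int.cast_abs, Nat.abs_cast]
      show |((D0 * (k : ℤ) : ℤ) : ℝ)| ≤ X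
      rw [e1]
      have h8 : (k : ℝ) ≤ X / M := (Nat.le_floor_iff (by positivity)).mp m2
      calc M * (k : ℝ) ≤ M * (X / M) := mul_le_mul_of_nonneg_left h8 hM0.le
        _ = X := by field_simp
    · exact hno k (by omega) (m4.coprime_dvd_right hNW) (hmodd k W N hNW m6) hk'
        (hsol k (by omega) m4 m6 fun q hq hqm => ((hPm q).mp (m5 q hq hqm)).2)
  · intro k _ k' _ h
    have h8 : D0 * (k : ℤ) = D0 * (k' : ℤ) := h
    exact_mod_cast mul_left_cancel₀ hD0 h8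

end Pool.Agent.Helper47.DG
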