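import Mathlib
import Pool.Agent.Helper47.WA.Dense
import Pool.Agent.Helper47.DG.Twist

/-!
# Approximation for diagonal curves
-/

set_option autoImplicit false
set_option linter.style.haveILetI false

namespace Pool.Agent.Helper47.DG

open Polynomial

/-- the curve `c y ^ m = a x ^ n + b w ^ n` has a point over `K` -/
def HasPoint {K : Type*} [Field K] (a b c : K) (n m : ℕ) : Prop :=
  ∃ x w y : K, (x ≠ 0 ∨ w ≠ 0) ∧ c * y ^ m = a * x ^ n + b * w ^ n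

/-- the `m`-th powers form a neighbourhood of a nonzero `m`-th power -/
theorem powers_nhds {K : Type*} [NontriviallyNormedField K] [CompleteSpace K] [CharZero K]
    (m : ℕ) (hm : 0 < m) (y : K) (hy : y ≠ 0) : {z : K | ∃ u : K, u ^ m = z} ∈ nhds (y ^ m) := by
  have h1 : HasStrictDerivAt (fun x : K => x ^ m) (m * y ^ (m - 1)) y := hasStrictDerivAt_pow m y
  have h2 : (m * y ^ (m - 1) : K) ≠ 0 :=
    mul_ne_zero (by exact_mod_cast hm.ne') (pow_ne_zero _ hy)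
  have h3 := h1.map_nhds_eq h2
  rw [← h3, Filter.mem_map]
  exact Filter.Eventually.of_forall fun x => ⟨x, rfl⟩

/-- a point with `w ≠ 0` -/
theorem point_w {K : Type*} [NontriviallyNormedField K] [CompleteSpace K] [CharZero K]
    {n m : ℕ} (hn : 0 < n) (hm : 0 < m) {a b c : K} (ha : a ≠ 0) (hc : c ≠ 0)
    (h : HasPoint a b c n m) : ∃ x w y : K, w ≠ 0 ∧ c * y ^ m = a * x ^ n + b * w ^ n := by
  obtain ⟨x, w, y, hxw, hy⟩ := h
  by_cases hw : w = 0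
  · subst hw
    have hx : x ≠ 0 := by
      rcases hxw with h | h
      · exact h
      · exact absurd rfl h
    rw [zero_pow hn.ne', mul_zero, add_zero] at hy
    have hy0 : y ≠ 0 := by
      rintro rfl
      rw [zero_pow hm.ne', mul_zero] at hy
      exact mul_ne_zero ha (pow_ne_zero _ hx) hy.symm
    have h1 : Filter.Tendsto (fun w : K => (a * x ^ n + b * w ^ n) / c) (nhds 0)
        (nhds ((a * x ^ n + b * (0 : K) ^ n) / c)) := by
      have : Continuous fun w : K => (a * x ^ n + b * w ^ n) / c := by fun_prop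
      exact this.tendsto 0
    have h2 : (a * x ^ n + b * (0 : K) ^ n) / c = y ^ m := by
      rw [zero_pow hn.ne', mul_zero, add_zero, ← hy]
      field_simp
    rw [h2] at h1
    have h3 := h1 (powers_nhds m hm y hy0)
    rw [Filter.mem_map, Metric.mem_nhds_iff] at h3
    obtain ⟨δ, hδ, h4⟩ := h3
    obtain ⟨w, hw1, hw2⟩ := NormedField.exists_norm_lt K hδ
    obtain ⟨u, hu⟩ := h4 (show w ∈ Metric.ball (0 : K) δ by
      rw [Metric.mem_ball, dist_zero_right]; exact hw2)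
    refine ⟨x, w, u, norm_pos_iff.1 hw1, ?_⟩
    rw [hu]
    field_simp
  · exact ⟨x, w, y, hw, hy⟩

/-- the coefficient `b` is a continuous function of the others and of the point -/
theorem coeff_b {K : Type*} [NontriviallyNormedField K] (n m : ℕ) (a b c x w y : K) (hw : w ≠ 0)
    (h : c * y ^ m = a * x ^ n + b * w ^ n) (ε : ℝ) (hε : 0 < ε) :
    ∃ δ : ℝ, 0 < δ ∧ ∀ a' c' x' w' y' : K, ‖a' - a‖ < δ → ‖c' - c‖ < δ → ‖x' - x‖ < δ →
      ‖w' - w‖ < δ → ‖y' - y‖ < δ → w' ≠ 0 ∧ ‖(c' * y' ^ m - a' * x' ^ n) / w' ^ n - b‖ < ε := by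
  have hb : (c * y ^ m - a * x ^ n) / w ^ n = b := by
    rw [h]
    field_simp
    ring
  have hcont : ContinuousAt (fun t : K × K × K × K × K =>
      (t.2.1 * t.2.2.2.2 ^ m - t.1 * t.2.2.1 ^ n) / t.2.2.2.1 ^ n) (a, c, x, w, y) := by
    refine ContinuousAt.div ?_ ?_ (pow_ne_zero _ hw)
    · exact Continuous.continuousAt (by fun_prop)
    · exact Continuous.continuousAt (by fun_prop)
  have h1 : Metric.ball b ε ∈ nhds ((c * y ^ m - a * x ^ n) / w ^ n) := by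
    rw [hb]; exact Metric.ball_mem_nhds _ hε
  have h2 := hcont h1
  rw [Filter.mem_map, Metric.mem_nhds_iff] at h2
  obtain ⟨δ, hδ, h3⟩ := h2
  refine ⟨min δ ‖w‖, lt_min hδ (norm_pos_iff.2 hw), fun a' c' x' w' y' e1 e2 e3 e4 e5 => ⟨?_, ?_⟩⟩
  · rintro rfl
    rw [zero_sub, norm_neg] at e4
    exact absurd e4 (not_lt.2 (min_le_right _ _))
  · have h4 : (a', c', x', w', y') ∈ Metric.ball (a, c, x, w, y) δ := by
      have := min_le_left δ ‖w‖
      rw [Metric.mem_ball, Prod.dist_eq, max_lt_iff, Prod.dist_eq, max_lt_iff, Prod.dist_eq,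
        max_lt_iff, Prod.dist_eq, max_lt_iff]
      simp only [dist_eq_norm]
      exact ⟨e1.trans_le this, e2.trans_le this, e3.trans_le this, e4.trans_le this,
        e5.trans_le this⟩
    have h5 := h3 h4
    rw [Set.mem_preimage, Metric.mem_ball, dist_eq_norm] at h5
    exact h5

/-- scaling by a rational number close to the inverse of a local root -/
theorem scale {K : Type*} [NontriviallyNormedField K] (m : ℕ) (r k κ : K) (hκ : κ ≠ 0)
    (h : κ ^ m = k) (ε : ℝ) (hε : 0 < ε) :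
    ∃ δ : ℝ, 0 < δ ∧ ∀ z : K, ‖z - κ⁻¹‖ < δ → z ≠ 0 ∧ ‖k * z ^ m * r - r‖ < ε := by
  have hc : Continuous fun z : K => k * z ^ m * r := by fun_prop
  have h1 := hc.tendsto κ⁻¹
  have h8 : k * κ⁻¹ ^ m * r = r := by
    rw [← h, inv_pow, mul_inv_cancel₀ (pow_ne_zero _ hκ), one_mul]
  have h2 : Metric.ball r ε ∈ nhds (k * κ⁻¹ ^ m * r) := by
    rw [h8]; exact Metric.ball_mem_nhds _ hε
  have h3 := h1 h2
  rw [Filter.mem_map, Metric.mem_nhds_iff] at h3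
  obtain ⟨δ, hδ, h4⟩ := h3
  refine ⟨min δ ‖κ⁻¹‖, lt_min hδ (norm_pos_iff.2 (inv_ne_zero hκ)), fun z hz => ⟨?_, ?_⟩⟩
  · rintro rfl
    rw [zero_sub, norm_neg] at hz
    exact absurd hz (not_lt.2 (min_le_right _ _))
  · have h5 : z ∈ Metric.ball κ⁻¹ δ := by
      rw [Metric.mem_ball, dist_eq_norm]
      exact hz.trans_le (min_le_left _ _)
    have h6 := h4 h5
    rw [Set.mem_preimage, Metric.mem_ball, dist_eq_norm] at h6
    exact h6

/-- roots of integers close to one -/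
theorem root_padic (S : Finset ℕ) (m k : ℕ) (hm : 0 < m) (hk : k.Coprime (m ^ 3 * ∏ p ∈ S, p))
    (hk1 : k % (m ^ 3 * ∏ p ∈ S, p) = 1 % (m ^ 3 * ∏ p ∈ S, p)) (p : ℕ) [hp : Fact p.Prime]
    (hpS : p ∈ S) : ∃ s : ℚ_[p], s ≠ 0 ∧ s ^ m = (k : ℚ_[p]) := by
  have hpd : p ∣ m ^ 3 * ∏ p ∈ S, p := (Finset.dvd_prod_of_mem _ hpS).mul_left _
  have hpk : ¬ (p : ℤ) ∣ (k : ℤ) := by
    intro h
    have h1 : p ∣ k := by exact_mod_cast h
    exact hp.out.one_lt.ne' (Nat.eq_one_of_dvd_coprimes hk h1 hpd)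
  obtain ⟨W', hW'⟩ : m ^ 3 * p ∣ m ^ 3 * ∏ p ∈ S, p :=
    mul_dvd_mul_left _ (Finset.dvd_prod_of_mem _ hpS)
  have hWk : ((m ^ 3 * ∏ p ∈ S, p : ℕ) : ℤ) ∣ 1 - k := by
    have : (k : ℤ) ≡ 1 [ZMOD ((m ^ 3 * ∏ p ∈ S, p : ℕ) : ℤ)] := by
      have := (Int.natCast_modEq_iff).2
        (show k ≡ 1 [MOD (m ^ 3 * ∏ p ∈ S, p)] from hk1)
      exact_mod_cast this
    exact this.dvd
  obtain ⟨e, he⟩ := hWk
  have hmle : ‖(m : ℤ_[p])‖ ≤ 1 := PadicInt.norm_le_one _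
  have hm0 : 0 < ‖(m : ℤ_[p])‖ := by
    rw [norm_pos_iff]
    exact_mod_cast hm.ne'
  have hpn : ‖(p : ℤ_[p])‖ < 1 := by
    rw [PadicInt.norm_p]
    exact inv_lt_one_of_one_lt₀ (by exact_mod_cast hp.out.one_lt)
  obtain ⟨s, h3, h4⟩ := Pool.Agent.Q68.EB.pow_of p m hm (k : ℤ) 1 hpk (by
    rw [one_pow, he, hW']
    push_cast
    rw [norm_mul, norm_mul, norm_mul, norm_pow]
    have h1 : ‖(W' : ℤ_[p])‖ ≤ 1 := PadicInt.norm_le_one _
    have h2 : ‖(e : ℤ_[p])‖ ≤ 1 := PadicInt.norm_le_one _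
    calc ‖(m : ℤ_[p])‖ ^ 3 * ‖(p : ℤ_[p])‖ * ‖(W' : ℤ_[p])‖ * ‖(e : ℤ_[p])‖
        ≤ ‖(m : ℤ_[p])‖ ^ 3 * ‖(p : ℤ_[p])‖ * 1 * 1 := by gcongr
      _ = ‖(m : ℤ_[p])‖ ^ 2 * (‖(m : ℤ_[p])‖ * ‖(p : ℤ_[p])‖) := by ring
      _ < ‖(m : ℤ_[p])‖ ^ 2 * 1 := by
          refine mul_lt_mul_of_pos_left ?_ (by positivity)
          calc ‖(m : ℤ_[p])‖ * ‖(p : ℤ_[p])‖ ≤ 1 * ‖(p : ℤ_[p])‖ := by gcongr
            _ < 1 := by rw [one_mul]; exact hpn
      _ = ‖(m : ℤ_[p])‖ ^ 2 := mul_one _)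
  exact ⟨s, h3, by rw [h4]; norm_cast⟩

/-- a point over the real numbers -/
theorem point_real (n m : ℕ) (hn : 0 < n) (hm : Odd m) (a b c : ℝ) (hc : c ≠ 0) :
    HasPoint a b c n m := by
  obtain ⟨y, hy⟩ : ∃ y : ℝ, y ^ m = a / c := by
    rcases le_total 0 (a / c) with h | h
    · exact ⟨(a / c) ^ ((m : ℝ)⁻¹), Real.rpow_inv_natCast_pow h hm.pos.ne'⟩
    · refine ⟨-(-(a / c)) ^ ((m : ℝ)⁻¹), ?_⟩
      rw [hm.neg_pow, Real.rpow_inv_natCast_pow (by linarith) hm.pos.ne']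
      ring
  refine ⟨1, 0, y, Or.inl one_ne_zero, ?_⟩
  rw [hy, one_pow, zero_pow hn.ne']
  field_simp
  ring

end Pool.Agent.Helper47.DG
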