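import Mathlib
import Pool.Graph.R_pool_sql_team_seeded_3997aac3.Results.MP_2f3286_ag.FermatTwistsOverAllFields

/-!
# Diagonal curves with points or sections: the upper bound
-/

set_option autoImplicit false

namespace Pool.Agent.Helper47.DG

open Polynomial Finset
open Pool.Agent.Q51.EL (pr Gf)
open Pool.Agent.Q51.SE (count)
open Pool.Agent.Q51.SZ
open Pool.Agent.Q51.ZC (fq fq_ne fq_irr fq_map Soluble HasPoint fin_set count_mono bound_set kpoint)

/-- over some number field of a degree prime to a prime factor `q` of `m` there is a point or a section -/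
def Bad (a b : ℤ) (n m : ℕ) (D : ℤ) : Prop :=
  Soluble a b n m D ∧ ∃ q : ℕ, q.Prime ∧ q ∣ m ∧ HasAny a b n m D q

theorem bad_count {a b : ℤ} {n m : ℕ} (hn : Odd n) (hm : 1 < m) (hmn : m ∣ n)
    (hirr : Irreducible ((fq a b n).map (Int.castRingHom ℚ))) :
    ∃ c C : ℝ, 0 < c ∧ 0 ≤ C ∧ ∀ X : ℝ, 3 ≤ X → (count (Bad a b n m) X : ℝ) ≤
      C * X / Real.log X * Real.exp (Gf (fq a b n) X) * Real.log X ^ (-c) := by
  have hn0 := hn.pos
  obtain ⟨ha, hb⟩ := fq_ne (by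
    have := Nat.le_of_dvd hn0 hmn
    omega) hirr
  have hm0 : m ≠ 0 := by omega
  obtain ⟨c1, C1, hc1, hC1, h1⟩ := any_set t_gd t_plc t_fib t_del t_vlb t_typ t_rtv t_rel t_glo0
    t_glo t_ksy t_nor hn hm hmn hirr m.primeFactors le_rfl
  obtain ⟨c2, C2, hc2, hC2, h2⟩ := bound_set hn hm hmn hirr m.primeFactors le_rfl
  refine ⟨min c1 c2, C1 + C2, lt_min hc1 hc2, add_nonneg hC1 hC2, fun X hX => ?_⟩
  have hl := one_le_log hX
  have hX0 : 0 < X := by linarith
  have hl0 : 0 < Real.log X := by linarith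
  have hsub : {D : ℤ | Squarefree D ∧ |(D : ℝ)| ≤ X ∧ Bad a b n m D} ⊆
      {D : ℤ | Squarefree D ∧ |(D : ℝ)| ≤ X ∧ (Soluble a b n m D ∧ ¬ HasPoint a b n m D ∧
        ∃ q ∈ m.primeFactors, HasAny a b n m D q)} ∪
      {D : ℤ | Squarefree D ∧ |(D : ℝ)| ≤ X ∧ (Soluble a b n m D ∧ ∃ q ∈ m.primeFactors,
        ∃ d : ℤ, ¬ (q : ℤ) ∣ d ∧ Pool.Agent.Q51.ZC.HasOrthogonalFamily a b n m D q d)} := by
    rintro D ⟨e1, e2, e3, q, hq, hqm, hany⟩
    by_cases hP : HasPoint a b n m D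
    · obtain ⟨q', hq', hqm', K, iK, iK2, hK, ⟨P⟩⟩ := hP
      refine Or.inr ⟨e1, e2, e3, q', Nat.mem_primeFactors.mpr ⟨hq', hqm', hm0⟩,
        Module.finrank ℚ K, ?_, ?_⟩
      · intro h
        exact hK (by exact_mod_cast h)
      · have hqn := hqm'.trans hmn
        exact kpoint ha hq' hn0 hqn hqm' (fq_irr hn0 hqn hirr) e1.ne_zero K P
    · exact Or.inl ⟨e1, e2, e3, hP, q, Nat.mem_primeFactors.mpr ⟨hq, hqm, hm0⟩, hany⟩
  have h3 := (Set.ncard_le_ncard hsub ((fin_set X _).union (fin_set X _))).trans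
    (Set.ncard_union_le _ _)
  have h4 : (count (Bad a b n m) X : ℝ) ≤
      (count (fun D => Soluble a b n m D ∧ ¬ HasPoint a b n m D ∧
        ∃ q ∈ m.primeFactors, HasAny a b n m D q) X : ℝ) +
      (count (fun D => Soluble a b n m D ∧ ∃ q ∈ m.primeFactors,
        ∃ d : ℤ, ¬ (q : ℤ) ∣ d ∧ Pool.Agent.Q51.ZC.HasOrthogonalFamily a b n m D q d) X : ℝ) := by
    unfold count
    exact_mod_cast h3
  have h5 := h1 X hX
  have h6 := h2 X hX
  have h7 : Real.log X ^ (-c1) ≤ Real.log X ^ (-(min c1 c2)) :=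
    Real.rpow_le_rpow_of_exponent_le hl (neg_le_neg (min_le_left _ _))
  have h8 : Real.log X ^ (-c2) ≤ Real.log X ^ (-(min c1 c2)) :=
    Real.rpow_le_rpow_of_exponent_le hl (neg_le_neg (min_le_right _ _))
  have e1 : C1 * X / Real.log X * Real.exp (Gf (fq a b n) X) * Real.log X ^ (-c1) ≤
      C1 * X / Real.log X * Real.exp (Gf (fq a b n) X) * Real.log X ^ (-(min c1 c2)) := by
    gcongr
  have e2 : C2 * X / Real.log X * Real.exp (Gf (fq a b n) X) * Real.log X ^ (-c2) ≤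
      C2 * X / Real.log X * Real.exp (Gf (fq a b n) X) * Real.log X ^ (-(min c1 c2)) := by
    gcongr
  have e3 : (C1 + C2) * X / Real.log X * Real.exp (Gf (fq a b n) X) * Real.log X ^ (-(min c1 c2)) =
      C1 * X / Real.log X * Real.exp (Gf (fq a b n) X) * Real.log X ^ (-(min c1 c2)) +
      C2 * X / Real.log X * Real.exp (Gf (fq a b n) X) * Real.log X ^ (-(min c1 c2)) := by ring
  rw [e3]
  linarith

end Pool.Agent.Helper47.DG
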