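import Mathlib
import Pool.Agent.Helper47.DG.Approx
import Pool.Agent.Helper47.DG.Count

/-!
# Density of diagonal curves: the construction
-/

set_option autoImplicit false
set_option linter.style.haveILetI false

namespace Pool.Agent.Helper47.DG

open Polynomial
open Pool.Agent.Helper47.WA (exists_pos_le approx irreducible_of_near)
open Pool.Agent.Q51.ZC (fq fq_ne fq_map Soluble soluble_iff)

/-- the first approximation: a curve with a rational point near the given curves -/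
theorem first (n m : ℕ) (hn : 0 < n) (hm : Odd m) (S : Finset ℕ) (hS : ∀ p ∈ S, p.Prime)
    (a0 b0 c0 : ℝ) (ha0 : a0 ≠ 0) (hc0 : c0 ≠ 0) (a b c : ∀ (p : ℕ) [Fact p.Prime], ℚ_[p])
    (h0 : ∀ (p : ℕ) [Fact p.Prime], p ∈ S → a p ≠ 0 ∧ c p ≠ 0)
    (h : ∀ (p : ℕ) [Fact p.Prime], p ∈ S → HasPoint (a p) (b p) (c p) n m)
    (ε : ℝ) (hε : 0 < ε) :
    ∃ α β r x w y : ℚ, w ≠ 0 ∧ r ≠ 0 ∧ r * y ^ m = α * x ^ n + β * w ^ n ∧
      (|(α : ℝ) - a0| < ε ∧ |(β : ℝ) - b0| < ε ∧ |(r : ℝ) - c0| < ε) ∧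
      ∀ (p : ℕ) [Fact p.Prime], p ∈ S → ‖(α : ℚ_[p]) - a p‖ < ε ∧ ‖(β : ℚ_[p]) - b p‖ < ε ∧
        ‖(r : ℚ_[p]) - c p‖ < ε := by
  classical
  obtain ⟨x0, w0, y0, hw0, hy0⟩ := point_w hn hm.pos ha0 hc0 (point_real n m hn hm a0 b0 c0 hc0)
  obtain ⟨δ0, hδ0, hb0⟩ := coeff_b n m a0 b0 c0 x0 w0 y0 hw0 hy0 ε hε
  have h' : ∀ (p : ℕ) [Fact p.Prime], ∃ (x w y : ℚ_[p]) (δ : ℝ), 0 < δ ∧ (p ∈ S →
      ∀ a' c' x' w' y' : ℚ_[p], ‖a' - a p‖ < δ → ‖c' - c p‖ < δ → ‖x' - x‖ < δ →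
      ‖w' - w‖ < δ → ‖y' - y‖ < δ → w' ≠ 0 ∧
        ‖(c' * y' ^ m - a' * x' ^ n) / w' ^ n - b p‖ < ε) := by
    intro p hp
    by_cases hpS : p ∈ S
    · obtain ⟨x, w, y, hw, hy⟩ := point_w hn hm.pos (h0 p hpS).1 (h0 p hpS).2 (h p hpS)
      obtain ⟨δ, hδ, hb⟩ := coeff_b n m (a p) (b p) (c p) x w y hw hy ε hε
      exact ⟨x, w, y, δ, hδ, fun _ => hb⟩
    · exact ⟨0, 0, 0, 1, one_pos, fun h => absurd h hpS⟩
  choose xp wp yp dp hdp hbp using h'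
  obtain ⟨δ1, hδ1, hδ1'⟩ := exists_pos_le S
    (fun p => if hp : p.Prime then @dp p ⟨hp⟩ else 1) (by
      intro p hpS
      rw [dif_pos (hS p hpS)]
      exact @hdp p ⟨hS p hpS⟩)
  have hδ1'' : ∀ (p : ℕ) [Fact p.Prime], p ∈ S → δ1 ≤ dp p := by
    intro p hp hpS
    have := hδ1' p hpS
    rwa [dif_pos hp.out] at this
  obtain ⟨δ, hδdef⟩ : ∃ δ : ℝ, δ = min (min δ0 δ1) (min ε |c0|) := ⟨_, rfl⟩
  have hδ : 0 < δ := by
    rw [hδdef]; exact lt_min (lt_min hδ0 hδ1) (lt_min hε (abs_pos.2 hc0))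
  have e0 : δ ≤ δ0 := by rw [hδdef]; exact (min_le_left _ _).trans (min_le_left _ _)
  have e1 : δ ≤ δ1 := by rw [hδdef]; exact (min_le_left _ _).trans (min_le_right _ _)
  have e2 : δ ≤ ε := by rw [hδdef]; exact (min_le_right _ _).trans (min_le_left _ _)
  have e3 : δ ≤ |c0| := by rw [hδdef]; exact (min_le_right _ _).trans (min_le_right _ _)
  obtain ⟨α, hα0, hαp⟩ := approx S hS a0 a δ hδ
  obtain ⟨r, hr0, hrp⟩ := approx S hS c0 c δ hδ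
  obtain ⟨x, hx0, hxp⟩ := approx S hS x0 (fun p _ => xp p) δ hδ
  obtain ⟨w, hw0', hwp⟩ := approx S hS w0 (fun p _ => wp p) δ hδ
  obtain ⟨y, hy0', hyp⟩ := approx S hS y0 (fun p _ => yp p) δ hδ
  have hR := hb0 α r x w y (by rw [Real.norm_eq_abs]; exact hα0.trans_le e0)
    (by rw [Real.norm_eq_abs]; exact hr0.trans_le e0)
    (by rw [Real.norm_eq_abs]; exact hx0.trans_le e0)
    (by rw [Real.norm_eq_abs]; exact hw0'.trans_le e0)
    (by rw [Real.norm_eq_abs]; exact hy0'.trans_le e0)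
  have hw : w ≠ 0 := by
    intro h1
    apply hR.1
    rw [h1]; simp
  have hr : r ≠ 0 := by
    intro h1
    rw [h1] at hr0
    simp only [Rat.cast_zero, zero_sub, abs_neg] at hr0
    linarith
  refine ⟨α, (r * y ^ m - α * x ^ n) / w ^ n, r, x, w, y, hw, hr, ?_,
    ⟨hα0.trans_le e2, ?_, hr0.trans_le e2⟩, ?_⟩
  · have := pow_ne_zero n hw
    field_simp
    ring
  · have h1 := hR.2
    rw [Real.norm_eq_abs] at h1
    push_cast
    exact h1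
  · intro p hp hpS
    have h1 := hδ1'' p hpS
    have h2 := hbp p hpS α r x w y ((hαp p hpS).trans_le (e1.trans h1))
      ((hrp p hpS).trans_le (e1.trans h1)) ((hxp p hpS).trans_le (e1.trans h1))
      ((hwp p hpS).trans_le (e1.trans h1)) ((hyp p hpS).trans_le (e1.trans h1))
    refine ⟨(hαp p hpS).trans_le e2, ?_, (hrp p hpS).trans_le e2⟩
    push_cast
    exact h2.2

/-- common denominators -/
theorem common_den (u v : ℚ) : ∃ s : ℕ, s ≠ 0 ∧ ∀ n : ℕ, 0 < n →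
    ∃ A B : ℤ, (A : ℚ) = u * s ^ n ∧ (B : ℚ) = v * s ^ n := by
  refine ⟨u.den * v.den, mul_ne_zero u.den_ne_zero v.den_ne_zero, fun n hn => ?_⟩
  obtain ⟨k, rfl⟩ : ∃ k, n = k + 1 := ⟨n - 1, by omega⟩
  refine ⟨u.num * v.den * (u.den * v.den) ^ k, v.num * u.den * (u.den * v.den) ^ k, ?_, ?_⟩
  · have h1 := Rat.mul_den_eq_num u
    push_cast
    rw [← h1]
    ring
  · have h1 := Rat.mul_den_eq_num v
    push_cast
    rw [← h1]
    ring

theorem core (n m : ℕ) (hn : Odd n) (hm : 1 < m) (hmn : m ∣ n) (S : Finset ℕ)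
    (hS : ∀ p ∈ S, p.Prime) (a0 b0 c0 : ℝ) (ha0 : a0 ≠ 0) (hc0 : c0 ≠ 0)
    (a b c : ∀ (p : ℕ) [Fact p.Prime], ℚ_[p])
    (h0 : ∀ (p : ℕ) [Fact p.Prime], p ∈ S → a p ≠ 0 ∧ c p ≠ 0)
    (h : ∀ (p : ℕ) [Fact p.Prime], p ∈ S → HasPoint (a p) (b p) (c p) n m)
    (ε : ℝ) (hε : 0 < ε) :
    ∃ (A B : ℤ) (k : ℕ) (N t : ℚ), A ≠ 0 ∧ B ≠ 0 ∧ 0 < k ∧ N ≠ 0 ∧ t ≠ 0 ∧
      Soluble A B n m k ∧ ¬ Bad A B n m k ∧
      (|((A / N : ℚ) : ℝ) - a0| < ε ∧ |((B / N : ℚ) : ℝ) - b0| < ε ∧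
        |((k * t ^ m / N : ℚ) : ℝ) - c0| < ε) ∧
      ∀ (p : ℕ) [Fact p.Prime], p ∈ S → ‖((A / N : ℚ) : ℚ_[p]) - a p‖ < ε ∧
        ‖((B / N : ℚ) : ℚ_[p]) - b p‖ < ε ∧ ‖((k * t ^ m / N : ℚ) : ℚ_[p]) - c p‖ < ε := by
  classical
  have hn0 : 0 < n := hn.pos
  have hmodd : Odd m := hn.of_dvd_nat hmn
  obtain ⟨q, hqS, hq⟩ : ∃ q : ℕ, q ∉ S ∧ q.Prime := by
    obtain ⟨q, hq1, hq2⟩ := Nat.exists_infinite_primes (S.sup id + 1)
    refine ⟨q, fun hqS => ?_, hq2⟩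
    have : q ≤ S.sup id := Finset.le_sup (f := id) hqS
    omega
  haveI : Fact q.Prime := ⟨hq⟩
  have hS' : ∀ p ∈ insert q S, p.Prime := by
    intro p hp
    rcases Finset.mem_insert.1 hp with rfl | hp
    · exact hq
    · exact hS p hp
  have hqinv : 0 < (q : ℝ)⁻¹ := inv_pos.2 (by exact_mod_cast hq.pos)
  have hqinv1 : (q : ℝ)⁻¹ < 1 := inv_lt_one_of_one_lt₀ (by exact_mod_cast hq.one_lt)
  obtain ⟨α, β, r, x, w, y, hw, hr, heq, ⟨hα0, hβ0, hr0⟩, hp⟩ := first n m hn0 hmodd (insert q S)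
    hS' a0 b0 c0 ha0 hc0 (fun p _ => if p = q then 1 else a p)
    (fun p _ => if p = q then (q : ℚ_[p]) else b p)
    (fun p _ => if p = q then 1 + (q : ℚ_[p]) else c p) (by
      intro p hp hpS
      by_cases hpq : p = q
      · rw [if_pos hpq, if_pos hpq]
        refine ⟨one_ne_zero, ?_⟩
        have h1 : ((1 + q : ℕ) : ℚ_[p]) ≠ 0 := by
          rw [Nat.cast_ne_zero]; omega
        push_cast at h1
        exact h1
      · rw [if_neg hpq, if_neg hpq]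
        rcases Finset.mem_insert.1 hpS with h1 | h1
        · exact absurd h1 hpq
        · exact h0 p h1) (by
      intro p hp hpS
      by_cases hpq : p = q
      · rw [if_pos hpq, if_pos hpq, if_pos hpq]
        exact ⟨1, 1, 1, Or.inl one_ne_zero, by simp⟩
      · rw [if_neg hpq, if_neg hpq, if_neg hpq]
        rcases Finset.mem_insert.1 hpS with h1 | h1
        · exact absurd h1 hpq
        · exact h p h1) (min (ε / 2) (q : ℝ)⁻¹) (lt_min (half_pos hε) hqinv)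
  have hpq := hp q (Finset.mem_insert_self _ _)
  rw [if_pos rfl, if_pos rfl, if_pos rfl] at hpq
  have hpS : ∀ (p : ℕ) [Fact p.Prime], p ∈ S → ‖(α : ℚ_[p]) - a p‖ < ε / 2 ∧
      ‖(β : ℚ_[p]) - b p‖ < ε / 2 ∧ ‖(r : ℚ_[p]) - c p‖ < ε / 2 := by
    intro p hp1 hp2
    have h1 := hp p (Finset.mem_insert_of_mem hp2)
    have hpq : p ≠ q := by rintro rfl; exact hqS hp2
    rw [if_neg hpq, if_neg hpq, if_neg hpq] at h1
    have h2 := min_le_left (ε / 2) (q : ℝ)⁻¹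
    exact ⟨h1.1.trans_le h2, h1.2.1.trans_le h2, h1.2.2.trans_le h2⟩
  -- irreducibility
  have hcoef : ∀ i, (C α * X ^ n + C β : ℚ[X]).coeff i =
      (if i = n then α else 0) + (if i = 0 then β else 0) := by
    intro i
    rw [coeff_add, coeff_C_mul, coeff_X_pow, coeff_C]
    simp
  have hirr0 : Irreducible (C α * X ^ n + C β : ℚ[X]) := by
    refine (irreducible_of_near q (C α * X ^ n + C β) n hn0 ?_ ?_ ?_ ?_).1
    · refine (natDegree_add_le _ _).trans (max_le ?_ ?_)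
      · exact natDegree_C_mul_X_pow_le _ _
      · rw [natDegree_C]; exact Nat.zero_le _
    · rw [hcoef, if_pos rfl, if_neg hn0.ne', add_zero]
      exact hpq.1.trans_le ((min_le_right _ _).trans hqinv1.le)
    · intro i hi
      rw [hcoef, if_neg hi.ne, zero_add]
      by_cases h1 : i = 0
      · rw [if_pos h1]
        have h2 := Padic.nonarchimedean ((β : ℚ_[q]) - (q : ℚ_[q])) (q : ℚ_[q])
        rw [sub_add_cancel] at h2
        refine h2.trans_lt (max_lt ?_ ?_)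
        · exact hpq.2.1.trans_le ((min_le_right _ _).trans hqinv1.le)
        · rw [Padic.norm_p]; exact hqinv1
      · rw [if_neg h1]; simp
    · rw [hcoef, if_neg hn0.ne, if_pos rfl, zero_add]
      exact hpq.2.1.trans_le (min_le_right _ _)
  -- integral coefficients
  obtain ⟨s, hs, hAB⟩ := common_den (α / r) (β / r)
  obtain ⟨A, B, hA, hB⟩ := hAB n hn0
  have hsq : (s : ℚ) ≠ 0 := by exact_mod_cast hs
  have hNn : ((s : ℚ) ^ n / r) ≠ 0 := div_ne_zero (pow_ne_zero _ hsq) hr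
  have hA' : (A : ℚ) = (s : ℚ) ^ n / r * α := by rw [hA]; ring
  have hB' : (B : ℚ) = (s : ℚ) ^ n / r * β := by rw [hB]; ring
  have hirr : Irreducible ((fq A B n).map (Int.castRingHom ℚ)) := by
    have h1 : (fq A B n).map (Int.castRingHom ℚ) =
        C ((s : ℚ) ^ n / r) * (C α * X ^ n + C β) := by
      rw [fq_map, hA', hB', C_mul, C_mul]
      ring
    rw [h1]
    exact (irreducible_isUnit_mul (isUnit_C.2 (IsUnit.mk0 _ hNn))).2 hirr0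
  have h2n : 2 ≤ n := by
    have := Nat.le_of_dvd hn0 hmn
    omega
  obtain ⟨hA0, hB0⟩ := fq_ne h2n hirr
  obtain ⟨e, he⟩ := hmn
  -- the curve with `D = 1`
  have hpt : ∀ (K : Type) [Field K] [CharZero K],
      Nonempty (Pool.Agent.Q51.ZC.CPoint A B n m 1 K) := by
    intro K _ _
    refine ⟨⟨(x : K), (w : K), ((s ^ e * y : ℚ) : K), Or.inr (by exact_mod_cast hw), ?_⟩⟩
    have h1 : (s ^ e * y : ℚ) ^ m = A * x ^ n + B * w ^ n := by
      rw [hA', hB', mul_pow, ← pow_mul, mul_comm e m, ← he]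
      have h2 : (s : ℚ) ^ n / r * α * x ^ n + (s : ℚ) ^ n / r * β * w ^ n =
          (s : ℚ) ^ n / r * (α * x ^ n + β * w ^ n) := by ring
      rw [h2, ← heq]
      field_simp
    have h3 := congrArg (fun z : ℚ => (z : K)) h1
    push_cast at h3 ⊢
    rw [one_mul]
    exact h3
  have hsol : Soluble A B n m 1 := ⟨hpt ℝ, fun p => hpt ℚ_[(p : ℕ)]⟩
  obtain ⟨k, hk0, hkN, hk1, hksq, hkel, hkbad⟩ := exists_twist (fq A B n) hirr m (by omega) 1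
    squarefree_one ((soluble_iff hA0 hn0).2 hsol) (m ^ 3 * ∏ p ∈ S, p)
    (mul_ne_zero (pow_ne_zero _ (by omega))
      (Finset.prod_ne_zero_iff.2 fun p hp => (hS p hp).ne_zero)) (Bad A B n m)
    (bad_count hn hm ⟨e, he⟩ hirr)
  rw [one_mul] at hksq hkel hkbad
  -- local roots of `k`
  have hk0' : (0 : ℝ) < (k : ℝ) := by exact_mod_cast hk0
  have hmne : m ≠ 0 := by omega
  obtain ⟨κ0, hκ0, hκ0'⟩ : ∃ κ : ℝ, κ ≠ 0 ∧ κ ^ m = (k : ℝ) :=
    ⟨(k : ℝ) ^ ((m : ℝ)⁻¹), (Real.rpow_pos_of_pos hk0' _).ne',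
      Real.rpow_inv_natCast_pow hk0'.le hmne⟩
  obtain ⟨δ0, hδ0, hsc0⟩ := scale m (r : ℝ) (k : ℝ) κ0 hκ0 hκ0' (ε / 2) (half_pos hε)
  have h' : ∀ (p : ℕ) [Fact p.Prime], ∃ (κ : ℚ_[p]) (δ : ℝ), 0 < δ ∧ (p ∈ S →
      ∀ z : ℚ_[p], ‖z - κ⁻¹‖ < δ → z ≠ 0 ∧
        ‖(k : ℚ_[p]) * z ^ m * (r : ℚ_[p]) - (r : ℚ_[p])‖ < ε / 2) := by
    intro p hp
    by_cases hpS : p ∈ S
    · obtain ⟨κ, hκ, hκ'⟩ := root_padic S m k (by omega) hkN hk1 p hpS
      obtain ⟨δ, hδ, hsc⟩ := scale m (r : ℚ_[p]) (k : ℚ_[p]) κ hκ hκ' (ε / 2) (half_pos hε)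
      exact ⟨κ, δ, hδ, fun _ => hsc⟩
    · exact ⟨0, 1, one_pos, fun h => absurd h hpS⟩
  choose κp dp hdp hscp using h'
  obtain ⟨δ1, hδ1, hδ1'⟩ := exists_pos_le S
    (fun p => if hp : p.Prime then @dp p ⟨hp⟩ else 1) (by
      intro p hpS
      rw [dif_pos (hS p hpS)]
      exact @hdp p ⟨hS p hpS⟩)
  have hδ1'' : ∀ (p : ℕ) [Fact p.Prime], p ∈ S → δ1 ≤ dp p := by
    intro p hp hpS
    have := hδ1' p hpS
    rwa [dif_pos hp.out] at this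
  obtain ⟨l, hl0, hlp⟩ := approx S hS κ0⁻¹ (fun p _ => (κp p)⁻¹) (min δ0 δ1) (lt_min hδ0 hδ1)
  obtain ⟨hlne, hlc0⟩ := hsc0 (l : ℝ) (by rw [Real.norm_eq_abs]; exact hl0.trans_le (min_le_left _ _))
  have hl : l ≠ 0 := by exact_mod_cast hlne
  have hγ : (k * (l * (s : ℚ) ^ e) ^ m / ((s : ℚ) ^ n / r) : ℚ) = k * l ^ m * r := by
    rw [mul_pow, ← pow_mul, mul_comm e m, ← he]
    field_simp
  have hαN : (A / ((s : ℚ) ^ n / r) : ℚ) = α := by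
    rw [hA', mul_div_cancel_left₀ _ hNn]
  have hβN : (B / ((s : ℚ) ^ n / r) : ℚ) = β := by
    rw [hB', mul_div_cancel_left₀ _ hNn]
  have hε2 : min (ε / 2) (q : ℝ)⁻¹ < ε := (min_le_left _ _).trans_lt (half_lt_self hε)
  refine ⟨A, B, k, (s : ℚ) ^ n / r, l * (s : ℚ) ^ e, hA0, hB0, hk0, hNn,
    mul_ne_zero hl (pow_ne_zero _ hsq), (soluble_iff hA0 hn0).1 hkel, hkbad, ?_, ?_⟩
  · rw [hγ, hαN, hβN]
    refine ⟨hα0.trans hε2, hβ0.trans hε2, ?_⟩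
    have h1 := hlc0
    rw [Real.norm_eq_abs] at h1
    have h2 := hr0.trans_le (min_le_left (ε / 2) (q : ℝ)⁻¹)
    have h3 := abs_add_le ((k : ℝ) * (l : ℝ) ^ m * (r : ℝ) - (r : ℝ)) ((r : ℝ) - c0)
    rw [sub_add_sub_cancel] at h3
    push_cast
    linarith
  · intro p hp hpS'
    rw [hγ, hαN, hβN]
    obtain ⟨g1, g2, g3⟩ := hpS p hpS'
    refine ⟨g1.trans (half_lt_self hε), g2.trans (half_lt_self hε), ?_⟩
    have h1 := (hscp p hpS' (l : ℚ_[p]) ((hlp p hpS').trans_le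
      ((min_le_right _ _).trans (hδ1'' p hpS')))).2
    have h3 := norm_add_le ((k : ℚ_[p]) * (l : ℚ_[p]) ^ m * (r : ℚ_[p]) - (r : ℚ_[p]))
      ((r : ℚ_[p]) - c p)
    rw [sub_add_sub_cancel] at h3
    push_cast
    linarith

end Pool.Agent.Helper47.DG
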